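import Pool.Agent.H97.PRK.Targets

/-!
# MP_e37c09_lc: no homogeneous set in the first case
-/

open Ordinal Cardinal Order Set
open scoped ZFSet

universe u

namespace Pool.Agent.H40.PRK

open _root_.HD HD.PRK

theorem isFunc_rs {α β : Ordinal.{u}} {R : Ordinal.{u} → Ordinal.{u} → Prop}
    (h1 : ∀ a < α, ∃ b < β, R a b) (h2 : ∀ a b b', R a b → R a b' → b = b') :
    ZFSet.IsFunc α.toZFSet β.toZFSet (rs α β R) := by
  refine ⟨?_, ?_⟩
  · intro p hp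
    obtain ⟨a, ha, b, hb, -, rfl⟩ := mem_rs.1 hp
    rw [ZFSet.pair_mem_prod, toZFSet_mem_toZFSet_iff, toZFSet_mem_toZFSet_iff]
    exact ⟨ha, hb⟩
  · intro z hz
    obtain ⟨a, ha, rfl⟩ := mem_toZFSet_iff.1 hz
    obtain ⟨b, hb, hR⟩ := h1 a ha
    refine ⟨b.toZFSet, pair_mem_rs.2 ⟨ha, hb, hR⟩, ?_⟩
    intro w hw
    obtain ⟨a', -, b', -, hR', he⟩ := mem_rs.1 hw
    obtain ⟨e1, e2⟩ := ZFSet.pair_injective he
    have e3 := toZFSet_injective e1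
    subst e3
    rw [e2, h2 _ _ _ hR hR']

/-- the set with code `c` is a map from `γ` onto `β` -/
def Good (en : Ordinal.{u} → ZFSet.{u}) (γ β c : Ordinal.{u}) : Prop :=
  (∀ a < γ, ∃ b < β, b ∈ E2 en c a ∧ ∀ b' : Ordinal.{u}, b' ∈ E2 en c a → b' = b) ∧
    ∀ b < β, ∃ a < γ, b ∈ E2 en c a

theorem good_do {en : Ordinal.{u} → ZFSet.{u}} (hE : DO fun w => w 0 ∈ E2 en (w 2) (w 1))
    (γ : Ordinal.{u}) : DO fun w => Good en γ (w 0) (w 1) := by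
  have h := fun i j k => hE.s3 (X := fun x y z => x ∈ E2 en z y) i j k
  refine DO.and ?_ ?_
  · refine DO.allLtc (R := fun a w => ∃ b < w 0, b ∈ E2 en (w 1) a ∧
      ∀ b' : Ordinal.{u}, b' ∈ E2 en (w 1) a → b' = b) γ ?_
    refine DO.exLt (R := fun b w => b ∈ E2 en (w 2) (w 0) ∧
      ∀ b' : Ordinal.{u}, b' ∈ E2 en (w 2) (w 0) → b' = b) 1 ?_
    refine DO.and (h 0 1 3) ?_
    exact DO.all (R := fun b' w => b' ∈ E2 en (w 3) (w 1) → b' = w 0)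
      ((h 0 2 4).imp (DO.eq 0 1))
  · refine DO.allLt (R := fun b w => ∃ a < γ, b ∈ E2 en (w 1) a) 0 ?_
    exact DO.exLtc (R := fun a w => w 0 ∈ E2 en (w 2) a) γ (h 1 0 3)

/-- the relation `b = e_β n` -/
def Rn (en : Ordinal.{u} → ZFSet.{u}) (γ n β b : Ordinal.{u}) : Prop :=
  (β ≤ γ ∧ b = 0) ∨ (γ < β ∧ ∃ c, (Good en γ β c ∧ ∀ c' < c, ¬ Good en γ β c') ∧
    b ∈ E2 en c n)

theorem rn_dr {en : Ordinal.{u} → ZFSet.{u}} (hE : DO fun w => w 0 ∈ E2 en (w 2) (w 1))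
    (γ n : Ordinal.{u}) : DR (Rn en γ n) := by
  have h := fun i j k => hE.s3 (X := fun x y z => x ∈ E2 en z y) i j k
  have g := fun i j => (good_do hE γ).s2 (X := fun x y => Good en γ x y) i j
  refine DO.or ((DO.lec 0 γ).and (DO.eqc 1 0)) ((DO.gtc 0 γ).and ?_)
  refine DO.ex (R := fun c w => (Good en γ (w 0) c ∧ ∀ c' < c, ¬ Good en γ (w 0) c') ∧
    w 1 ∈ E2 en c n) ?_
  refine DO.and (DO.and (g 1 0) ?_) ?_
  · exact DO.allLt (R := fun c' w => ¬ Good en γ (w 1) c') 0 (g 2 0).not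
  · exact DO.sub (R := fun x w => w 2 ∈ E2 en (w 0) x) n (h 3 0 1)

/-- EQ. -/
theorem pf_EQ : T_EQ.{u} := by
  intro δ hA γ hγ hns hδ A hU hH
  obtain ⟨en, hen⟩ := HD.All.en.{u}
  obtain ⟨-, hE2, -, -⟩ := HD.All.ea.{u} en hen
  have hreg : (succ γ).IsRegular := Cardinal.isRegular_succ hγ
  have hγK : γ.ord < (succ γ).ord := Cardinal.ord_lt_ord.2 (Order.lt_succ γ)
  have hpos : 0 < γ.ord := by
    rw [← Cardinal.ord_zero]
    exact Cardinal.ord_lt_ord.2 (Cardinal.aleph0_pos.trans_le hγ)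
  have hK0 : 0 < (succ γ).ord := hpos.trans hγK
  have hgood : ∀ β, γ.ord < β → β < (succ γ).ord → ∃ c, Good en γ.ord β c := by
    intro β h1 h2
    obtain ⟨f, hf, hfun, honto⟩ := (hA γ hγ hns hδ).2 β h1 h2
    obtain ⟨c, hc⟩ := (hen.od f).1 hf.od
    refine ⟨c, ?_, ?_⟩
    · intro a ha
      obtain ⟨w, hw, huw⟩ := hfun.2 a.toZFSet (toZFSet_mem_toZFSet_iff.2 ha)
      have h3 := hfun.1 hw
      rw [ZFSet.pair_mem_prod] at h3
      obtain ⟨b, hb, rfl⟩ := mem_toZFSet_iff.1 h3.2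
      refine ⟨b, hb, ?_, ?_⟩
      · show ZFSet.pair a.toZFSet b.toZFSet ∈ en c
        rw [hc]
        exact hw
      · intro b' hb'
        have h4 : ZFSet.pair a.toZFSet b'.toZFSet ∈ en c := hb'
        rw [hc] at h4
        exact toZFSet_injective (huw _ h4)
    · intro b hb
      obtain ⟨a, ha, hab⟩ := honto b hb
      refine ⟨a, ha, ?_⟩
      show ZFSet.pair a.toZFSet b.toZFSet ∈ en c
      rw [hc]
      exact hab
  have hmin : ∀ β, γ.ord < β → β < (succ γ).ord → ∃ c, Good en γ.ord β c ∧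
      ∀ c' < c, ¬ Good en γ.ord β c' := by
    intro β h1 h2
    obtain ⟨c, hc, hm⟩ := WellFounded.has_min (wellFounded_lt (α := Ordinal.{u}))
      {c | Good en γ.ord β c} (hgood β h1 h2)
    exact ⟨c, hc, fun c' hc' h => hm c' h hc'⟩
  have hun : ∀ β c c', (Good en γ.ord β c ∧ ∀ d < c, ¬ Good en γ.ord β d) →
      (Good en γ.ord β c' ∧ ∀ d < c', ¬ Good en γ.ord β d) → c = c' := by
    intro β c c' h h'
    rcases lt_trichotomy c c' with h1 | h1 | h1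
    · exact absurd h.1 (h'.2 c h1)
    · exact h1
    · exact absurd h'.1 (h.2 c' h1)
  -- the functions
  have hR1 : ∀ n < γ.ord, ∀ β < (succ γ).ord, ∃ b < (succ γ).ord, Rn en γ.ord n β b := by
    intro n hn β hβ
    rcases le_or_gt β γ.ord with h | h
    · exact ⟨0, hK0, Or.inl ⟨h, rfl⟩⟩
    · obtain ⟨c, hc, hm⟩ := hmin β h hβ
      obtain ⟨b, hb, hbE, -⟩ := hc.1 n hn
      exact ⟨b, hb.trans hβ, Or.inr ⟨h, c, ⟨hc, hm⟩, hbE⟩⟩
  have hR2 : ∀ n < γ.ord, ∀ β b b', Rn en γ.ord n β b → Rn en γ.ord n β b' → b = b' := by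
    intro n hn β b b' h h'
    rcases h with ⟨h1, h2⟩ | ⟨h1, c, h2, h3⟩
    · rcases h' with ⟨_, h2'⟩ | ⟨h1', _⟩
      · rw [h2, h2']
      · exact absurd h1 (not_le.2 h1')
    · rcases h' with ⟨h1', _⟩ | ⟨_, c', h2', h3'⟩
      · exact absurd h1' (not_le.2 h1)
      · have e := hun β c c' h2 h2'
        subst e
        obtain ⟨d, -, -, hd⟩ := h2.1.1 n hn
        rw [hd b h3, hd b' h3']
  have hR3 : ∀ n < γ.ord, ∀ β b, Rn en γ.ord n β b → 0 < β → b < β := by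
    intro n hn β b h hβ
    rcases h with ⟨h1, h2⟩ | ⟨h1, c, h2, h3⟩
    · rw [h2]
      exact hβ
    · obtain ⟨d, hd1, -, hd⟩ := h2.1.1 n hn
      rw [hd b h3]
      exact hd1
  have hkey : ∀ n < γ.ord, ∃ η < (succ γ).ord, ∃ c : Ordinal.{u}, ∀ a ∈ A, η ≤ a →
      a < (succ γ).ord → Rn en γ.ord n a c := by
    intro n hn
    obtain ⟨η, hη, c, hc⟩ := hH (rs (succ γ).ord (succ γ).ord (Rn en γ.ord n))
      (hod_rs (rn_dr hE2 γ.ord n) _ _) (isFunc_rs (hR1 n hn) (hR2 n hn))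
      (fun a b hab h0 => hR3 n hn a b (pair_mem_rs.1 hab).2.2 h0)
    exact ⟨η, hη, c, fun a ha h1 h2 => (pair_mem_rs.1 (hc a ha h1 h2)).2.2⟩
  choose! η hη v hv using hkey
  obtain ⟨s, hs, hsb⟩ := Pool.Agent.H3.HD.exists_bound (ρ := (succ γ).ord) (τ := γ.ord)
    (by rw [Cardinal.card_ord, hreg.cof_ord]; exact Order.lt_succ γ) η (fun n hn => hη n hn)
  obtain ⟨a, haA, ha1, ha2⟩ := hU (max s γ.ord) (max_lt hs hγK)
  obtain ⟨a', haA', ha1', ha2'⟩ := hU a ha2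
  have hγa : γ.ord < a := (le_max_right _ _).trans_lt ha1
  have hγa' : γ.ord < a' := hγa.trans ha1'
  have hsa : s ≤ a := (le_max_left _ _).trans ha1.le
  have hsa' : s ≤ a' := hsa.trans ha1'.le
  obtain ⟨c, hc, hm⟩ := hmin a' hγa' ha2'
  obtain ⟨n, hn, hnE⟩ := hc.2 a ha1'
  have h1 : Rn en γ.ord n a' a := Or.inr ⟨hγa', c, ⟨hc, hm⟩, hnE⟩
  have h2 : Rn en γ.ord n a' (v n) := hv n hn a' haA' ((hsb n hn).trans hsa') ha2'
  have h3 : Rn en γ.ord n a (v n) := hv n hn a haA ((hsb n hn).trans hsa) ha2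
  have h4 : a = v n := hR2 n hn a' a (v n) h1 h2
  have h5 : v n < a := hR3 n hn a (v n) h3 (hpos.trans hγa)
  exact absurd h4 h5.ne'

end Pool.Agent.H40.PRK
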