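import Pool.Agent.H97.PRK.Targets

/-!
# MP_e37c09_lc: the image of a small set
-/

open Ordinal Cardinal Order Set
open scoped ZFSet

universe u

namespace Pool.Agent.H40.PRK

open _root_.HD HD.PRK

/-- JX. -/
theorem pf_JX : T_JX.{u} := by
  intro δ η θ j K μ ρ F hS x hx ⟨g, hg⟩ z
  have hE := hS.emb
  have hδη : δ < η := hE.dlt
  have hμη : μ < η := hS.mlt.trans hδη
  have hKV : K.ord.toZFSet ∈ V_ η := Gd.ord.2 hS.kη
  have hxV : x ∈ V_ η := mem_V_of_sub hx hKV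
  have hxo : ∀ w ∈ x, ∃ a < K.ord, w = a.toZFSet := fun w hw => by
    obtain ⟨a, ha, rfl⟩ := mem_toZFSet_iff.1 (hx hw)
    exact ⟨a, ha, rfl⟩
  set h : ZFSet.{u} := rs μ K.ord (fun i a => a = g i ∧ a.toZFSet ∈ x) with hh
  have hhV : h ∈ V_ η := by
    refine mem_V_of_sub (y := ZFSet.prod μ.toZFSet K.ord.toZFSet) ?_
      (hE.gd.prod (Gd.ord.2 hμη) hKV)
    intro p hp
    obtain ⟨a, ha, b, hb, -, rfl⟩ := mem_rs.1 hp
    rw [ZFSet.pair_mem_prod, toZFSet_mem_toZFSet_iff, toZFSet_mem_toZFSet_iff]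
    exact ⟨ha, hb⟩
  constructor
  · intro hz
    -- first transfer
    have t1 : Loc.{u} fun v => ∀ z ∈ v 0, ∃ i ∈ v 1, ZFSet.pair i z ∈ v 2 :=
      Loc.allMem (R := fun z v => ∃ i ∈ v 1, ZFSet.pair i z ∈ v 2) 0
        (Loc.exMem (R := fun i v => ZFSet.pair i (v 0) ∈ v 3) 2 (loc_pmem 0 1 4))
    have t2 := (hE.trl t1 [x, μ.toZFSet, h] (by
      simp only [List.mem_cons, List.not_mem_nil, or_false, forall_eq_or_imp, forall_eq]
      exact ⟨hxV, Gd.ord.2 hμη, hhV⟩)).1 (by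
      show ∀ z ∈ x, ∃ i ∈ μ.toZFSet, ZFSet.pair i z ∈ h
      intro w hw
      obtain ⟨a, ha, rfl⟩ := hxo w hw
      obtain ⟨i, hi, hgi⟩ := hg a hw
      exact ⟨i.toZFSet, toZFSet_mem_toZFSet_iff.2 hi,
        pair_mem_rs.2 ⟨hi, ha, hgi.symm, hw⟩⟩)
    have t3 : ∀ z ∈ j x, ∃ i ∈ j μ.toZFSet, ZFSet.pair i z ∈ j h := t2
    obtain ⟨i, hi, hiz⟩ := t3 z hz
    rw [hE.fix μ hS.mlt] at hi
    obtain ⟨i₀, hi₀, rfl⟩ := mem_toZFSet_iff.1 hi
    have hi₀δ : i₀ < δ := hi₀.trans hS.mlt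
    have hi₀V : i₀.toZFSet ∈ V_ η := Gd.ord.2 (hi₀δ.trans hδη)
    by_cases hc : (g i₀).toZFSet ∈ x
    · refine ⟨g i₀, hc, ?_⟩
      obtain ⟨b, hb, he⟩ := hxo _ hc
      have hgK : g i₀ < K.ord := by
        rw [toZFSet_injective he]
        exact hb
      have s1 : Loc.{u} fun v => ∀ z ∈ v 0, ZFSet.pair (v 1) z ∈ v 2 → z = v 3 :=
        Loc.allMem (R := fun z v => ZFSet.pair (v 1) z ∈ v 2 → z = v 3) 0
          ((loc_pmem 2 0 3).imp (Loc.eq 0 4))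
      have s2 := (hE.trl s1 [x, i₀.toZFSet, h, (g i₀).toZFSet] (by
        simp only [List.mem_cons, List.not_mem_nil, or_false, forall_eq_or_imp, forall_eq]
        exact ⟨hxV, hi₀V, hhV, Gd.ord.2 (hgK.trans hS.kη)⟩)).1 (by
        show ∀ z ∈ x, ZFSet.pair i₀.toZFSet z ∈ h → z = (g i₀).toZFSet
        intro w hw hp
        obtain ⟨a, ha, rfl⟩ := hxo w hw
        rw [(pair_mem_rs.1 hp).2.2.1])
      have s3 : ∀ z ∈ j x, ZFSet.pair (j i₀.toZFSet) z ∈ j h → z = j (g i₀).toZFSet := s2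
      have s4 := s3 z hz (by rw [hE.fix i₀ hi₀δ]; exact hiz)
      rw [s4, hE.ord (hgK.trans hS.kη)]
    · exfalso
      have s1 : Loc.{u} fun v => ∀ z ∈ v 0, ¬ ZFSet.pair (v 1) z ∈ v 2 :=
        Loc.allMem (R := fun z v => ¬ ZFSet.pair (v 1) z ∈ v 2) 0 (loc_pmem 2 0 3).not
      have s2 := (hE.trl s1 [x, i₀.toZFSet, h] (by
        simp only [List.mem_cons, List.not_mem_nil, or_false, forall_eq_or_imp, forall_eq]
        exact ⟨hxV, hi₀V, hhV⟩)).1 (by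
        show ∀ z ∈ x, ¬ ZFSet.pair i₀.toZFSet z ∈ h
        intro w hw hp
        obtain ⟨a, ha, rfl⟩ := hxo w hw
        have h3 := (pair_mem_rs.1 hp).2.2
        apply hc
        rw [← h3.1]
        exact h3.2)
      have s3 : ∀ z ∈ j x, ¬ ZFSet.pair (j i₀.toZFSet) z ∈ j h := s2
      exact s3 z hz (by rw [hE.fix i₀ hi₀δ]; exact hiz)
  · rintro ⟨a, ha, rfl⟩
    obtain ⟨b, hb, he⟩ := hxo _ ha
    have haK : a < K.ord := by
      rw [toZFSet_injective he]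
      exact hb
    have haη : a < η := haK.trans hS.kη
    have h1 := (hE.mem (Gd.ord.2 haη) hxV).1 ha
    rwa [hE.ord haη] at h1

end Pool.Agent.H40.PRK
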